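import Mathlib

/-!
# Retractional skeletons on compact spaces
-/

set_option autoImplicit false

open Set Topology Filter

namespace Pool.Agent.H110.RP

universe u v

/-- `(r_s)` is a retractional skeleton on `L`. -/
structure IsRSkeleton {L : Type u} [TopologicalSpace L] {Γ : Type v} [PartialOrder Γ]
    (r : Γ → L → L) : Prop where
  nonempty : Nonempty Γ
  directed : ∀ s t : Γ, ∃ w, s ≤ w ∧ t ≤ w
  cont : ∀ s, Continuous (r s)
  retr : ∀ s x, r s (r s x) = r s x
  metr : ∀ s, TopologicalSpace.MetrizableSpace (range (r s))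
  comm : ∀ s t, s ≤ t → ∀ x, r s (r t x) = r s x ∧ r t (r s x) = r s x
  sup : ∀ f : ℕ → Γ, StrictMono f → ∃ t, IsLUB (range f) t
  lim_sup : ∀ f : ℕ → Γ, StrictMono f → ∀ t, IsLUB (range f) t →
    ∀ x, Tendsto (fun n => r (f n) x) atTop (𝓝 (r t x))
  lim : ∀ x, Tendsto (fun s => r s x) atTop (𝓝 x)

variable {L : Type u} [TopologicalSpace L] {Γ : Type v} [PartialOrder Γ] {r : Γ → L → L}

theorem exists_subseq {f : ℕ → Γ} (hf : Monotone f) (h : ∀ m, ∃ n, m ≤ n ∧ f n ≠ f m) :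
    ∃ φ : ℕ → ℕ, (∀ n, n ≤ φ n) ∧ StrictMono (f ∘ φ) := by
  choose nx h1 h2 using h
  let φ : ℕ → ℕ := fun n => Nat.rec 0 (fun _ x => nx x) n
  have hφ : ∀ n, φ (n + 1) = nx (φ n) := fun n => rfl
  have hlt : ∀ n, f (φ n) < f (φ (n + 1)) := by
    intro n
    rw [hφ]
    exact lt_of_le_of_ne (hf (h1 _)) (h2 _).symm
  refine ⟨φ, ?_, strictMono_nat_of_lt_succ hlt⟩
  intro n
  induction n with
  | zero => exact Nat.zero_le _
  | succ n ih =>
    have h3 : φ n < φ (n + 1) := by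
      by_contra hcon
      rw [not_lt] at hcon
      exact (lt_irrefl _) ((hlt n).trans_le (hf hcon))
    omega

theorem IsRSkeleton.mono_lub (h : IsRSkeleton r) {f : ℕ → Γ} (hf : Monotone f) :
    ∃ t, IsLUB (range f) t ∧ ∃ φ : ℕ → ℕ, ∀ x,
      Tendsto (fun k => r (f (φ k)) x) atTop (𝓝 (r t x)) := by
  by_cases hc : ∀ m, ∃ n, m ≤ n ∧ f n ≠ f m
  · obtain ⟨φ, h1, h2⟩ := exists_subseq hf hc
    obtain ⟨t, ht⟩ := h.sup _ h2
    refine ⟨t, ⟨?_, ?_⟩, φ, fun x => h.lim_sup _ h2 t ht x⟩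
    · rintro _ ⟨n, rfl⟩
      exact (hf (h1 n)).trans (ht.1 ⟨n, rfl⟩)
    · intro t' ht'
      apply ht.2
      rintro _ ⟨n, rfl⟩
      exact ht' ⟨φ n, rfl⟩
  · push Not at hc
    obtain ⟨m, hm⟩ := hc
    refine ⟨f m, ⟨?_, fun t' ht' => ht' ⟨m, rfl⟩⟩, fun _ => m, fun x => tendsto_const_nhds⟩
    rintro _ ⟨n, rfl⟩
    rcases le_total m n with hmn | hmn
    · exact (hm n hmn).le
    · exact hf hmn

theorem IsRSkeleton.ub (h : IsRSkeleton r) {C : Set Γ} (hC : C.Countable) : ∃ t, ∀ s ∈ C, s ≤ t := by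
  rcases C.eq_empty_or_nonempty with rfl | hne
  · exact ⟨Classical.choice h.nonempty, fun s hs => hs.elim⟩
  obtain ⟨c, rfl⟩ := hC.exists_eq_range hne
  choose w hw1 hw2 using h.directed
  let f : ℕ → Γ := fun n => Nat.rec (c 0) (fun n x => w x (c (n + 1))) n
  have hf : ∀ n, f (n + 1) = w (f n) (c (n + 1)) := fun n => rfl
  have hmono : Monotone f := monotone_nat_of_le_succ fun n => by rw [hf]; exact hw1 _ _
  obtain ⟨t, ht, -⟩ := h.mono_lub hmono
  refine ⟨t, ?_⟩
  rintro _ ⟨n, rfl⟩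
  have h1 : c n ≤ f n := by
    cases n with
    | zero => exact le_refl _
    | succ n => rw [hf]; exact hw2 _ _
  exact h1.trans (ht.1 ⟨n, rfl⟩)

theorem IsRSkeleton.mem_range (h : IsRSkeleton r) {s : Γ} {x : L} : x ∈ range (r s) ↔ r s x = x := by
  constructor
  · rintro ⟨y, rfl⟩
    exact h.retr s y
  · intro hx
    exact ⟨x, hx⟩

theorem IsRSkeleton.range_mono (h : IsRSkeleton r) {s t : Γ} (hst : s ≤ t) :
    range (r s) ⊆ range (r t) := by
  rintro _ ⟨x, rfl⟩
  exact ⟨r s x, (h.comm s t hst x).2⟩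

theorem IsRSkeleton.isClosed_range [T2Space L] (h : IsRSkeleton r) (s : Γ) :
    IsClosed (range (r s)) := by
  have : range (r s) = {x | r s x = x} := by
    ext x
    exact h.mem_range
  rw [this]
  exact isClosed_eq (h.cont s) continuous_id

theorem IsRSkeleton.separates [T2Space L] (h : IsRSkeleton r) {x y : L} (hxy : x ≠ y) :
    ∃ s, r s x ≠ r s y := by
  by_contra hcon
  push Not at hcon
  have : Nonempty Γ := h.nonempty
  have : IsDirected Γ (· ≤ ·) := ⟨h.directed⟩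
  have h1 := h.lim x
  have h2 := h.lim y
  simp only [hcon] at h1
  exact hxy (tendsto_nhds_unique h1 h2)

section compact

variable [CompactSpace L] [T2Space L]

theorem countable_cover {ι : Type*} (V : ι → Set (L × L)) (hV : ∀ i, IsOpen (V i)) {F : L → ℝ}
    (hF : Continuous F) (hc : ∀ p : L × L, F p.1 ≠ F p.2 → ∃ i, p ∈ V i) :
    ∃ J : Set ι, J.Countable ∧ ∀ p : L × L, F p.1 ≠ F p.2 → ∃ i ∈ J, p ∈ V i := by
  classical
  have hK : ∀ n : ℕ, IsCompact {p : L × L | 1 / ((n : ℝ) + 1) ≤ |F p.1 - F p.2|} := by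
    intro n
    refine IsClosed.isCompact (isClosed_le continuous_const ?_)
    exact ((hF.comp continuous_fst).sub (hF.comp continuous_snd)).abs
  have hfin : ∀ n : ℕ, ∃ T : Finset ι,
      {p : L × L | 1 / ((n : ℝ) + 1) ≤ |F p.1 - F p.2|} ⊆ ⋃ i ∈ T, V i := by
    intro n
    refine (hK n).elim_finite_subcover V hV ?_
    intro p hp
    have hp' : 1 / ((n : ℝ) + 1) ≤ |F p.1 - F p.2| := hp
    have h1 : F p.1 ≠ F p.2 := by
      intro heq
      rw [heq, sub_self, abs_zero] at hp'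
      have : (0 : ℝ) < 1 / ((n : ℝ) + 1) := by positivity
      linarith
    exact mem_iUnion.2 (hc p h1)
  choose T hT using hfin
  refine ⟨⋃ n, (T n : Set ι), countable_iUnion fun n => (T n).countable_toSet, ?_⟩
  intro p hp
  have h1 : 0 < |F p.1 - F p.2| := abs_pos.2 (sub_ne_zero.2 hp)
  obtain ⟨n, hn⟩ := exists_nat_one_div_lt h1
  have h2 := hT n (show p ∈ {p : L × L | 1 / ((n : ℝ) + 1) ≤ |F p.1 - F p.2|} from hn.le)
  simp only [mem_iUnion] at h2
  obtain ⟨i, hi, hpi⟩ := h2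
  exact ⟨i, mem_iUnion.2 ⟨n, hi⟩, hpi⟩

theorem isOpen_ne (h : IsRSkeleton r) (s : Γ) : IsOpen {p : L × L | r s p.1 ≠ r s p.2} := by
  have h1 : IsClosed {p : L × L | r s p.1 = r s p.2} :=
    isClosed_eq ((h.cont s).comp continuous_fst) ((h.cont s).comp continuous_snd)
  exact h1.isOpen_compl

/-- every continuous function factors through one of the retractions -/
theorem factor (h : IsRSkeleton r) {F : L → ℝ} (hF : Continuous F) : ∃ t, ∀ x, F (r t x) = F x := by
  obtain ⟨J, hJ, hJF⟩ := countable_cover (fun s => {p : L × L | r s p.1 ≠ r s p.2})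
    (isOpen_ne h) hF (fun p hp => h.separates (fun heq => hp (by rw [heq])))
  obtain ⟨t, ht⟩ := h.ub hJ
  refine ⟨t, fun x => ?_⟩
  by_contra hne
  obtain ⟨s, hs, hsx⟩ := hJF (r t x, x) hne
  exact hsx (h.comm s t (ht s hs) x).1

/-- uniform convergence along increasing sequences -/
theorem uniform (h : IsRSkeleton r) {f : ℕ → Γ} (hf : StrictMono f) {t : Γ}
    (ht : IsLUB (range f) t) {F : L → ℝ} (hF : Continuous F) (hFt : ∀ x, F (r t x) = F x)
    {ε : ℝ} (hε : 0 < ε) : ∃ n, ∀ x, |F x - F (r (f n) x)| < ε := by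
  have hK : IsCompact {p : L × L | ε ≤ |F p.1 - F p.2|} := by
    refine IsClosed.isCompact (isClosed_le continuous_const ?_)
    exact ((hF.comp continuous_fst).sub (hF.comp continuous_snd)).abs
  obtain ⟨T, hT⟩ := hK.elim_finite_subcover (fun n : ℕ => {p : L × L | r (f n) p.1 ≠ r (f n) p.2})
    (fun n => isOpen_ne h (f n)) (by
      intro p hp
      have hp' : ε ≤ |F p.1 - F p.2| := hp
      by_contra hcon
      simp only [mem_iUnion, mem_ofPred_eq, not_exists, not_not] at hcon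
      have h1 := h.lim_sup f hf t ht p.1
      have h2 := h.lim_sup f hf t ht p.2
      simp only [hcon] at h1
      have h3 := tendsto_nhds_unique h1 h2
      have h4 : F p.1 = F p.2 := by rw [← hFt p.1, ← hFt p.2, h3]
      rw [h4, sub_self, abs_zero] at hp'
      linarith)
  obtain ⟨n, hn⟩ : ∃ n, ∀ m ∈ T, m ≤ n := by
    refine ⟨T.sup id, fun m hm => Finset.le_sup (f := id) hm⟩
  refine ⟨n, fun x => ?_⟩
  by_contra hcon
  rw [not_lt] at hcon
  have h1 := hT (show (x, r (f n) x) ∈ {p : L × L | ε ≤ |F p.1 - F p.2|} from hcon)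
  simp only [mem_iUnion] at h1
  obtain ⟨m, hm, hne⟩ := h1
  exact hne ((h.comm (f m) (f n) (hf.monotone (hn m hm)) x).1).symm

end compact

end Pool.Agent.H110.RP
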