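import Pool.Agent.H110.RP.C1

/-!
# From a retractional skeleton on a compact convex subset of the dual to a projectional skeleton
-/

set_option autoImplicit false

open Set Topology Filter

namespace Pool.Agent.H110.RP

universe u v

/-- `(P_s)` is a projectional skeleton on `X`. -/
structure IsPSkeleton {X : Type u} [NormedAddCommGroup X] [NormedSpace ℝ X] {Γ : Type v}
    [PartialOrder Γ] (P : Γ → X →L[ℝ] X) : Prop where
  nonempty : Nonempty Γ
  directed : ∀ s t : Γ, ∃ w, s ≤ w ∧ t ≤ w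
  proj : ∀ s x, P s (P s x) = P s x
  separable : ∀ s, TopologicalSpace.IsSeparable (range (P s))
  union : ∀ x, ∃ s, x ∈ range (P s)
  comm : ∀ s t, s ≤ t → ∀ x, P s (P t x) = P s x ∧ P t (P s x) = P s x
  sup : ∀ f : ℕ → Γ, StrictMono f → ∃ t, IsLUB (range f) t
  range_sup : ∀ f : ℕ → Γ, StrictMono f → ∀ t, IsLUB (range f) t →
    range (P t) = closure (⋃ n, range (P (f n)))

variable {X : Type u} [NormedAddCommGroup X] [NormedSpace ℝ X]

/-- the convex combination in a convex set -/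
noncomputable def mix {L : Set (WeakDual ℝ X)} (hL : Convex ℝ L) (a b : L) (c : Set.Icc (0 : ℝ) 1) : L :=
  ⟨(c : ℝ) • (a : WeakDual ℝ X) + (1 - (c : ℝ)) • (b : WeakDual ℝ X),
    hL a.2 b.2 c.2.1 (by linarith [c.2.2]) (by ring)⟩

/-- the properties of `P(K)` and of the dual unit ball that are used -/
structure Adm (L : Set (WeakDual ℝ X)) : Prop where
  compact : IsCompact L
  convex : Convex ℝ L
  ball : ∀ μ ∈ L, ∀ x : X, |μ x| ≤ ‖x‖
  norming : ∀ (x : X) (c : ℝ), 0 ≤ c → (∀ μ ∈ L, |μ x| ≤ c) → ‖x‖ ≤ c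
  repr : ∀ G : L → ℝ, Continuous G →
    (∀ (a b : L) (c : Set.Icc (0 : ℝ) 1),
      G (mix convex a b c) = (c : ℝ) * G a + (1 - (c : ℝ)) * G b) →
    (∀ h : (0 : WeakDual ℝ X) ∈ L, G ⟨0, h⟩ = 0) → ∃ y : X, ∀ μ : L, (μ : WeakDual ℝ X) y = G μ

variable {L : Set (WeakDual ℝ X)} {Γ : Type v} [PartialOrder Γ] {r : Γ → L → L}

theorem mix_apply (hL : Convex ℝ L) (a b : L) (c : Set.Icc (0 : ℝ) 1) (x : X) :
    (mix hL a b c : WeakDual ℝ X) x =
      (c : ℝ) * (a : WeakDual ℝ X) x + (1 - (c : ℝ)) * (b : WeakDual ℝ X) x := rfl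

theorem continuous_mix (hL : Convex ℝ L) :
    Continuous fun p : (L × L) × Set.Icc (0 : ℝ) 1 => mix hL p.1.1 p.1.2 p.2 := by
  refine Continuous.subtype_mk ?_ _
  fun_prop

theorem continuous_eval' (x : X) : Continuous fun μ : L => (μ : WeakDual ℝ X) x :=
  (WeakDual.eval_continuous x).comp continuous_subtype_val

theorem ext_L {a b : L} (h : ∀ x, (a : WeakDual ℝ X) x = (b : WeakDual ℝ X) x) : a = b := by
  apply Subtype.ext
  exact DFunLike.ext _ _ h

/-- `x` is fixed by `r_s` -/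
def InX (r : Γ → L → L) (s : Γ) (x : X) : Prop :=
  ∀ μ : L, (r s μ : WeakDual ℝ X) x = (μ : WeakDual ℝ X) x

/-- the good indices -/
structure Good (hL : Convex ℝ L) (r : Γ → L → L) (s : Γ) : Prop where
  zero : ∀ h : (0 : WeakDual ℝ X) ∈ L, r s ⟨0, h⟩ = ⟨0, h⟩
  conv : ∀ a ∈ range (r s), ∀ b ∈ range (r s), ∀ c, mix hL a b c ∈ range (r s)
  sep : ∀ μ ∈ range (r s), ∀ ν ∈ range (r s),
    (∀ x, InX r s x → (μ : WeakDual ℝ X) x = (ν : WeakDual ℝ X) x) → μ = ν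

theorem InX.mono (h : IsRSkeleton r) {s t : Γ} (hst : s ≤ t) {x : X} (hx : InX r s x) :
    InX r t x := by
  intro μ
  rw [← hx (r t μ), (h.comm s t hst μ).1, hx μ]

theorem exists_InX (hc : IsCompact L) (h : IsRSkeleton r) (x : X) : ∃ s, InX r s x := by
  have : CompactSpace L := isCompact_iff_compactSpace.1 hc
  exact factor h (continuous_eval' x)

/-- countable dense subset of the range -/
theorem exists_dense (hc : IsCompact L) (h : IsRSkeleton r) (s : Γ) :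
    ∃ D : Set L, D.Countable ∧ D ⊆ range (r s) ∧ range (r s) ⊆ closure D := by
  have : CompactSpace L := isCompact_iff_compactSpace.1 hc
  have : CompactSpace (range (r s)) := isCompact_iff_compactSpace.1 (h.isClosed_range s).isCompact
  have : TopologicalSpace.MetrizableSpace (range (r s)) := h.metr s
  let _ := TopologicalSpace.metrizableSpaceMetric (range (r s))
  obtain ⟨D, hD, hDd⟩ := TopologicalSpace.exists_countable_dense (range (r s))
  refine ⟨Subtype.val '' D, hD.image _, ?_, ?_⟩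
  · rintro _ ⟨y, -, rfl⟩
    exact y.2
  · intro y hy
    have h1 : (⟨y, hy⟩ : range (r s)) ∈ closure D := hDd _
    exact image_closure_subset_closure_image continuous_subtype_val ⟨_, h1, rfl⟩

theorem exists_countable_sep (hc : IsCompact L) (h : IsRSkeleton r) (s : Γ) :
    ∃ Z : Set X, Z.Countable ∧ ∀ μ ν : L, r s μ ≠ r s ν →
      ∃ x ∈ Z, (μ : WeakDual ℝ X) x ≠ (ν : WeakDual ℝ X) x := by
  have : CompactSpace L := isCompact_iff_compactSpace.1 hc
  have : CompactSpace (range (r s)) := isCompact_iff_compactSpace.1 (h.isClosed_range s).isCompact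
  have : TopologicalSpace.MetrizableSpace (range (r s)) := h.metr s
  let _ := TopologicalSpace.metrizableSpaceMetric (range (r s))
  obtain ⟨D, hD, hDd⟩ := TopologicalSpace.exists_countable_dense (range (r s))
  let q : L → range (r s) := fun μ => ⟨r s μ, μ, rfl⟩
  have hq : Continuous q := Continuous.subtype_mk (h.cont s) _
  have hV : ∀ x : X, IsOpen {p : L × L | (p.1 : WeakDual ℝ X) x ≠ (p.2 : WeakDual ℝ X) x} := by
    intro x
    have h1 : IsClosed {p : L × L | (p.1 : WeakDual ℝ X) x = (p.2 : WeakDual ℝ X) x} :=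
      isClosed_eq ((continuous_eval' x).comp continuous_fst) ((continuous_eval' x).comp continuous_snd)
    exact h1.isOpen_compl
  have hJ : ∀ d : range (r s), ∃ J : Set X, J.Countable ∧ ∀ p : L × L,
      dist (q p.1) d ≠ dist (q p.2) d →
        ∃ x ∈ J, p ∈ {p : L × L | (p.1 : WeakDual ℝ X) x ≠ (p.2 : WeakDual ℝ X) x} := by
    intro d
    refine countable_cover _ hV (F := fun μ => dist (q μ) d) (hq.dist continuous_const) ?_
    intro p hp
    by_contra hcon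
    simp only [mem_ofPred_eq, not_exists, not_not] at hcon
    exact hp (by rw [ext_L hcon])
  choose J hJ1 hJ2 using hJ
  refine ⟨⋃ d ∈ D, J d, hD.biUnion fun d _ => hJ1 d, ?_⟩
  intro μ ν hne
  have h1 : q μ ≠ q ν := fun h' => hne (congrArg Subtype.val h')
  have h2 : 0 < dist (q μ) (q ν) := dist_pos.2 h1
  obtain ⟨d, hd, hdd⟩ := Metric.mem_closure_iff.1 (hDd (q μ)) (dist (q μ) (q ν) / 2) (by positivity)
  have h3 : dist (q μ) d ≠ dist (q ν) d := by
    intro heq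
    have h4 := dist_triangle (q μ) d (q ν)
    rw [dist_comm d (q ν), ← heq] at h4
    linarith
  obtain ⟨x, hx, hx2⟩ := hJ2 d (μ, ν) h3
  exact ⟨x, mem_biUnion hd hx, hx2⟩

theorem exists_conv (hc : IsCompact L) (hL : Convex ℝ L) (h : IsRSkeleton r)
    (hA : ∀ a ∈ ⋃ s, range (r s), ∀ b ∈ ⋃ s, range (r s), ∀ c, mix hL a b c ∈ ⋃ s, range (r s))
    (s : Γ) : ∃ C : Set Γ, C.Countable ∧ ∀ t, (∀ s' ∈ C, s' ≤ t) →
      ∀ a ∈ range (r s), ∀ b ∈ range (r s), ∀ c, mix hL a b c ∈ range (r t) := by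
  obtain ⟨D, hD, hD1, hD2⟩ := exists_dense hc h s
  obtain ⟨Q, hQ, hQd⟩ := TopologicalSpace.exists_countable_dense (Set.Icc (0 : ℝ) 1)
  have hσ : ∀ p : (L × L) × Set.Icc (0 : ℝ) 1, ∃ w : Γ, p.1.1 ∈ D → p.1.2 ∈ D →
      mix hL p.1.1 p.1.2 p.2 ∈ range (r w) := by
    intro p
    by_cases hp : p.1.1 ∈ D ∧ p.1.2 ∈ D
    · obtain ⟨w, hw⟩ := mem_iUnion.1 (hA _ (mem_iUnion.2 ⟨s, hD1 hp.1⟩) _
        (mem_iUnion.2 ⟨s, hD1 hp.2⟩) p.2)
      exact ⟨w, fun _ _ => hw⟩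
    · exact ⟨s, fun h1 h2 => (hp ⟨h1, h2⟩).elim⟩
  choose σ hσ using hσ
  refine ⟨σ '' ((D ×ˢ D) ×ˢ Q), ((hD.prod hD).prod hQ).image _, ?_⟩
  intro t ht a ha b hb c
  have hcl : IsClosed ((fun p : (L × L) × Set.Icc (0 : ℝ) 1 => mix hL p.1.1 p.1.2 p.2) ⁻¹'
      range (r t)) := (h.isClosed_range t).preimage (continuous_mix hL)
  have hsub : (D ×ˢ D) ×ˢ Q ⊆ (fun p : (L × L) × Set.Icc (0 : ℝ) 1 => mix hL p.1.1 p.1.2 p.2) ⁻¹'
      range (r t) := by
    rintro p ⟨⟨h1, h2⟩, h3⟩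
    exact h.range_mono (ht _ ⟨p, ⟨⟨h1, h2⟩, h3⟩, rfl⟩) (hσ p h1 h2)
  have h4 := closure_minimal hsub hcl
  rw [closure_prod_eq, closure_prod_eq] at h4
  exact h4 (show ((a, b), c) ∈ _ from ⟨⟨hD2 ha, hD2 hb⟩, hQd c⟩)

theorem good_of_limit (hL : Convex ℝ L) (h : IsRSkeleton r) {f : ℕ → Γ} {t : Γ}
    {φ : ℕ → ℕ} (hφ : ∀ x, Tendsto (fun k => r (f (φ k)) x) atTop (𝓝 (r t x)))
    (h0 : ∀ h : (0 : WeakDual ℝ X) ∈ L, r t ⟨0, h⟩ = ⟨0, h⟩)
    (h1 : ∀ n, ∀ a ∈ range (r (f n)), ∀ b ∈ range (r (f n)), ∀ c, mix hL a b c ∈ range (r t))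
    (h2 : ∀ n, ∀ μ ν : L, r (f n) μ ≠ r (f n) ν →
      ∃ x, InX r t x ∧ (μ : WeakDual ℝ X) x ≠ (ν : WeakDual ℝ X) x) : Good hL r t where
  zero := h0
  conv := by
    intro a ha b hb c
    have h4 : Continuous fun p : L × L => mix hL p.1 p.2 c :=
      (continuous_mix hL).comp (Continuous.prodMk continuous_id continuous_const)
    have ha' : Tendsto (fun k => r (f (φ k)) a) atTop (𝓝 a) := by
      have := hφ a
      rwa [h.mem_range.1 ha] at this
    have hb' : Tendsto (fun k => r (f (φ k)) b) atTop (𝓝 b) := by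
      have := hφ b
      rwa [h.mem_range.1 hb] at this
    have h5 : Tendsto (fun k => (r (f (φ k)) a, r (f (φ k)) b)) atTop (𝓝 (a, b)) :=
      ha'.prodMk_nhds hb'
    have h3 : Tendsto (fun k => mix hL (r (f (φ k)) a) (r (f (φ k)) b) c) atTop
        (𝓝 (mix hL a b c)) := by
      have h8 := (h4.tendsto (a, b)).comp h5
      exact h8
    have h6 : ∀ k, mix hL (r (f (φ k)) a) (r (f (φ k)) b) c ∈ range (r t) := fun k =>
      h1 (φ k) (r (f (φ k)) a) (mem_range_self a) (r (f (φ k)) b) (mem_range_self b) c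
    have h7 : IsClosed (range (r t)) := h.isClosed_range t
    exact h7.mem_of_tendsto h3 (Eventually.of_forall h6)
  sep := by
    intro μ hμ ν hν hall
    by_contra hne
    have h3 : ∃ k, r (f (φ k)) μ ≠ r (f (φ k)) ν := by
      by_contra hcon
      push Not at hcon
      have h4 := hφ μ
      have h5 := hφ ν
      simp only [hcon] at h4
      have h6 := tendsto_nhds_unique h4 h5
      rw [h.mem_range.1 hμ, h.mem_range.1 hν] at h6
      exact hne h6
    obtain ⟨k, hk⟩ := h3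
    obtain ⟨x, hx, hx2⟩ := h2 _ μ ν hk
    exact hx2 (hall x hx)

theorem good_sup (hL : Convex ℝ L) (h : IsRSkeleton r) {f : ℕ → Γ} (hf : StrictMono f) {t : Γ}
    (ht : IsLUB (range f) t) (hg : ∀ n, Good hL r (f n)) : Good hL r t := by
  have hle : ∀ n, f n ≤ t := fun n => ht.1 ⟨n, rfl⟩
  refine good_of_limit hL h (f := f) (φ := id) (h.lim_sup f hf t ht) ?_ ?_ ?_
  · intro h0
    have h1 := h.lim_sup f hf t ht ⟨0, h0⟩
    have h2 : (fun n => r (f n) ⟨0, h0⟩) = fun _ => ⟨0, h0⟩ := funext fun n => (hg n).zero h0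
    rw [h2] at h1
    exact tendsto_nhds_unique h1 tendsto_const_nhds
  · intro n a ha b hb c
    exact h.range_mono (hle n) ((hg n).conv a ha b hb c)
  · intro n μ ν hne
    by_contra hcon
    push Not at hcon
    apply hne
    refine (hg n).sep _ ⟨μ, rfl⟩ _ ⟨ν, rfl⟩ fun x hx => ?_
    rw [hx μ, hx ν]
    exact hcon x (hx.mono h (hle n))

theorem exists_good (hc : IsCompact L) (hL : Convex ℝ L) (h : IsRSkeleton r)
    (hA : ∀ a ∈ ⋃ s, range (r s), ∀ b ∈ ⋃ s, range (r s), ∀ c, mix hL a b c ∈ ⋃ s, range (r s))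
    (hA0 : ∀ h : (0 : WeakDual ℝ X) ∈ L, ⟨0, h⟩ ∈ ⋃ s, range (r s)) (s₀ : Γ) :
    ∃ t, s₀ ≤ t ∧ Good hL r t := by
  choose Z hZ1 hZ2 using exists_countable_sep hc h
  choose C hC1 hC2 using exists_conv hc hL h hA
  choose σ hσ using exists_InX (r := r) hc h
  have hstep : ∀ s, ∃ s', s ≤ s' ∧ (∀ x ∈ Z s, InX r s' x) ∧ ∀ w ∈ C s, w ≤ s' := by
    intro s
    obtain ⟨t, ht⟩ := h.ub ((((hZ1 s).image σ).union (hC1 s)).insert s)
    refine ⟨t, ht _ (mem_insert _ _), fun x hx => ?_, fun w hw => ht _ (Or.inr (Or.inr hw))⟩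
    exact (hσ x).mono h (ht _ (Or.inr (Or.inl ⟨x, hx, rfl⟩)))
  choose nx hnx1 hnx2 hnx3 using hstep
  obtain ⟨s₁, hs₀, hs₁⟩ : ∃ s₁, s₀ ≤ s₁ ∧ ∀ h : (0 : WeakDual ℝ X) ∈ L, r s₁ ⟨0, h⟩ = ⟨0, h⟩ := by
    by_cases h0 : (0 : WeakDual ℝ X) ∈ L
    · obtain ⟨w, hw⟩ := mem_iUnion.1 (hA0 h0)
      obtain ⟨s₁, h1, h2⟩ := h.directed s₀ w
      exact ⟨s₁, h1, fun _ => h.mem_range.1 (h.range_mono h2 hw)⟩
    · exact ⟨s₀, le_refl _, fun h => (h0 h).elim⟩
  let f : ℕ → Γ := fun n => Nat.rec s₁ (fun _ x => nx x) n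
  have hf : ∀ n, f (n + 1) = nx (f n) := fun n => rfl
  have hmono : Monotone f := monotone_nat_of_le_succ fun n => by rw [hf]; exact hnx1 _
  obtain ⟨t, ht, φ, hφ⟩ := h.mono_lub hmono
  have hle : ∀ n, f n ≤ t := fun n => ht.1 ⟨n, rfl⟩
  refine ⟨t, hs₀.trans (hle 0), good_of_limit hL h hφ ?_ ?_ ?_⟩
  · intro h0
    have h1 : (⟨0, h0⟩ : L) ∈ range (r s₁) := h.mem_range.2 (hs₁ h0)
    exact h.mem_range.1 (h.range_mono (hle 0) h1)
  · intro n a ha b hb c
    refine hC2 (f n) t (fun w hw => ?_) a ha b hb c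
    exact (hnx3 (f n) w hw).trans (hle (n + 1))
  · intro n μ ν hne
    obtain ⟨x, hx, hx2⟩ := hZ2 (f n) μ ν hne
    exact ⟨x, (hnx2 (f n) x hx).mono h (hle (n + 1)), hx2⟩

end Pool.Agent.H110.RP
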