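import Pool.Agent.H110.RP.C2

/-!
# The projectional skeleton
-/

set_option autoImplicit false

open Set Topology Filter

namespace Pool.Agent.H110.RP

universe u v

variable {X : Type u} [NormedAddCommGroup X] [NormedSpace ℝ X]
variable {L : Set (WeakDual ℝ X)} {Γ : Type v} [PartialOrder Γ] {r : Γ → L → L}

theorem Adm.ext (hL : Adm L) {x y : X} (h : ∀ μ : L, (μ : WeakDual ℝ X) x = (μ : WeakDual ℝ X) y) :
    x = y := by
  have h1 : ‖x - y‖ ≤ 0 := by
    refine hL.norming _ 0 (le_refl _) fun μ hμ => ?_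
    rw [map_sub, h ⟨μ, hμ⟩, sub_self, abs_zero]
  exact sub_eq_zero.1 (norm_le_zero_iff.1 h1)

theorem good_affine (hL : Convex ℝ L) {s : Γ} (hs : Good hL r s) (a b : L)
    (c : Set.Icc (0 : ℝ) 1) : r s (mix hL a b c) = mix hL (r s a) (r s b) c := by
  refine hs.sep _ ⟨_, rfl⟩ _ (hs.conv _ ⟨a, rfl⟩ _ ⟨b, rfl⟩ c) fun x hx => ?_
  rw [hx, mix_apply, mix_apply, hx, hx]

theorem exists_proj (hL : Adm L) (h : IsRSkeleton r) {s : Γ} (hs : Good hL.convex r s) (x : X) :
    ∃ y : X, ∀ μ : L, (μ : WeakDual ℝ X) y = (r s μ : WeakDual ℝ X) x := by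
  refine hL.repr (fun μ => (r s μ : WeakDual ℝ X) x) ((continuous_eval' x).comp (h.cont s)) ?_ ?_
  · intro a b c
    rw [good_affine hL.convex hs, mix_apply]
  · intro h0
    rw [hs.zero h0]
    rfl

/-- the projection of a good index, as a function -/
noncomputable def pf (hL : Adm L) (h : IsRSkeleton r) (s : {s : Γ // Good hL.convex r s}) (x : X) : X :=
  (exists_proj hL h s.2 x).choose

theorem pf_spec (hL : Adm L) (h : IsRSkeleton r) (s : {s : Γ // Good hL.convex r s}) (x : X)
    (μ : L) : (μ : WeakDual ℝ X) (pf hL h s x) = (r s μ : WeakDual ℝ X) x :=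
  (exists_proj hL h s.2 x).choose_spec μ

/-- the projection of a good index -/
noncomputable def pr (hL : Adm L) (h : IsRSkeleton r) (s : {s : Γ // Good hL.convex r s}) :
    X →L[ℝ] X :=
  LinearMap.mkContinuous
    { toFun := pf hL h s
      map_add' := fun x y => hL.ext fun μ => by
        rw [pf_spec, map_add, map_add, pf_spec, pf_spec]
      map_smul' := fun c x => hL.ext fun μ => by
        rw [pf_spec, map_smul, RingHom.id_apply, map_smul, pf_spec] } 1 (by
    intro x
    change ‖pf hL h s x‖ ≤ 1 * ‖x‖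
    rw [one_mul]
    refine hL.norming _ _ (norm_nonneg _) fun μ hμ => ?_
    have := pf_spec hL h s x ⟨μ, hμ⟩
    simp only at this
    rw [this]
    exact hL.ball _ (r s ⟨μ, hμ⟩).2 x)

theorem pr_spec (hL : Adm L) (h : IsRSkeleton r) (s : {s : Γ // Good hL.convex r s}) (x : X)
    (μ : L) : (μ : WeakDual ℝ X) (pr hL h s x) = (r s μ : WeakDual ℝ X) x := pf_spec hL h s x μ

theorem norm_pr (hL : Adm L) (h : IsRSkeleton r) (s : {s : Γ // Good hL.convex r s}) :
    ‖pr hL h s‖ ≤ 1 := LinearMap.mkContinuous_norm_le _ zero_le_one _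

theorem mem_range_pr (hL : Adm L) (h : IsRSkeleton r) {s : {s : Γ // Good hL.convex r s}} {x : X} :
    x ∈ range (pr hL h s) ↔ InX r s.1 x := by
  constructor
  · rintro ⟨y, rfl⟩ μ
    rw [pr_spec, pr_spec, h.retr]
  · intro hx
    refine ⟨x, hL.ext fun μ => ?_⟩
    rw [pr_spec]
    exact hx μ

theorem separable_pr (hL : Adm L) (h : IsRSkeleton r) (s : {s : Γ // Good hL.convex r s}) :
    TopologicalSpace.IsSeparable (range (pr hL h s)) := by
  have : CompactSpace L := isCompact_iff_compactSpace.1 hL.compact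
  have : CompactSpace (range (r s.1)) :=
    isCompact_iff_compactSpace.1 (h.isClosed_range s.1).isCompact
  have : TopologicalSpace.MetrizableSpace (range (r s.1)) := h.metr s.1
  let _ := TopologicalSpace.metrizableSpaceMetric (range (r s.1))
  let J : range (pr hL h s) → C(range (r s.1), ℝ) := fun x =>
    ⟨fun μ => ((μ : L) : WeakDual ℝ X) x, (continuous_eval' (x : X)).comp continuous_subtype_val⟩
  have hJ : Isometry J := by
    refine Isometry.of_dist_eq fun x y => ?_
    have hdist : ∀ μ : L, (μ : WeakDual ℝ X) ((x : X) - y) =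
        (r s.1 μ : WeakDual ℝ X) x - (r s.1 μ : WeakDual ℝ X) y := by
      intro μ
      rw [map_sub, (mem_range_pr hL h).1 x.2 μ, (mem_range_pr hL h).1 y.2 μ]
    apply le_antisymm
    · rw [ContinuousMap.dist_le dist_nonneg]
      intro μ
      change dist (((μ : L) : WeakDual ℝ X) (x : X)) (((μ : L) : WeakDual ℝ X) (y : X)) ≤ _
      rw [Real.dist_eq, ← map_sub, Subtype.dist_eq, dist_eq_norm]
      exact hL.ball _ (μ : L).2 _
    · rw [Subtype.dist_eq, dist_eq_norm]
      refine hL.norming _ _ dist_nonneg fun μ hμ => ?_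
      have h1 := hdist ⟨μ, hμ⟩
      simp only at h1
      rw [h1, ← Real.dist_eq]
      exact ContinuousMap.dist_apply_le_dist (f := J x) (g := J y)
        (⟨r s.1 ⟨μ, hμ⟩, ⟨μ, hμ⟩, rfl⟩ : range (r s.1))
  have : SecondCountableTopology C(range (r s.1), ℝ) := inferInstance
  have : SecondCountableTopology (range (pr hL h s)) := hJ.isEmbedding.secondCountableTopology
  exact TopologicalSpace.IsSeparable.of_subtype _

/-- The main construction: a retractional skeleton on `L` whose induced set is convex (and contains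
`0` if `L` does) gives a `1`-projectional skeleton on `X`. -/
theorem isPSkeleton (hL : Adm L) (h : IsRSkeleton r)
    (hA : ∀ a ∈ ⋃ s, range (r s), ∀ b ∈ ⋃ s, range (r s), ∀ c,
      mix hL.convex a b c ∈ ⋃ s, range (r s))
    (hA0 : ∀ h : (0 : WeakDual ℝ X) ∈ L, ⟨0, h⟩ ∈ ⋃ s, range (r s)) :
    IsPSkeleton (pr hL h) := by
  have hgood := exists_good hL.compact hL.convex h hA hA0
  have hcomm : ∀ s t : {s : Γ // Good hL.convex r s}, s ≤ t → ∀ x,
      pr hL h s (pr hL h t x) = pr hL h s x ∧ pr hL h t (pr hL h s x) = pr hL h s x := by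
    intro s t hst x
    have hst' : s.1 ≤ t.1 := hst
    constructor
    · refine hL.ext fun μ => ?_
      rw [pr_spec, pr_spec, pr_spec, (h.comm s.1 t.1 hst' μ).2]
    · refine hL.ext fun μ => ?_
      rw [pr_spec, pr_spec, pr_spec, (h.comm s.1 t.1 hst' μ).1]
  refine ⟨?_, ?_, ?_, separable_pr hL h, ?_, hcomm, ?_, ?_⟩
  · obtain ⟨t, -, ht⟩ := hgood (Classical.choice h.nonempty)
    exact ⟨⟨t, ht⟩⟩
  · intro s t
    obtain ⟨w, h1, h2⟩ := h.directed s.1 t.1
    obtain ⟨w', h3, h4⟩ := hgood w
    exact ⟨⟨w', h4⟩, h1.trans h3, h2.trans h3⟩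
  · intro s x
    exact (hcomm s s (le_refl _) x).1
  · intro x
    obtain ⟨s, hs⟩ := exists_InX hL.compact h x
    obtain ⟨t, h1, h2⟩ := hgood s
    exact ⟨⟨t, h2⟩, (mem_range_pr hL h).2 (hs.mono h h1)⟩
  · intro f hf
    have hf' : StrictMono fun n => (f n).1 := fun m n hmn => hf hmn
    obtain ⟨t, ht⟩ := h.sup _ hf'
    refine ⟨⟨t, good_sup hL.convex h hf' ht fun n => (f n).2⟩, ?_, ?_⟩
    · rintro _ ⟨n, rfl⟩
      exact ht.1 ⟨n, rfl⟩
    · intro t' ht'
      apply ht.2
      rintro _ ⟨n, rfl⟩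
      exact ht' ⟨n, rfl⟩
  · intro f hf t ht
    have hf' : StrictMono fun n => (f n).1 := fun m n hmn => hf hmn
    obtain ⟨t₁, ht₁⟩ := h.sup _ hf'
    have hlub : IsLUB (range f)
        (⟨t₁, good_sup hL.convex h hf' ht₁ fun n => (f n).2⟩ : {s : Γ // Good hL.convex r s}) := by
      constructor
      · rintro _ ⟨n, rfl⟩
        exact ht₁.1 ⟨n, rfl⟩
      · intro t' ht'
        apply ht₁.2
        rintro _ ⟨n, rfl⟩
        exact ht' ⟨n, rfl⟩
    have htt : t.1 = t₁ := congrArg Subtype.val (ht.unique hlub)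
    have ht' : IsLUB (range fun n => (f n).1) t.1 := by rw [htt]; exact ht₁
    have : CompactSpace L := isCompact_iff_compactSpace.1 hL.compact
    apply Subset.antisymm
    · intro x hx
      rw [mem_range_pr] at hx
      rw [Metric.mem_closure_iff]
      intro ε hε
      obtain ⟨n, hn⟩ := uniform h hf' ht' (continuous_eval' x) hx (half_pos hε)
      refine ⟨pr hL h (f n) x, mem_iUnion.2 ⟨n, x, rfl⟩, ?_⟩
      rw [dist_eq_norm]
      refine lt_of_le_of_lt (hL.norming _ (ε / 2) (by positivity) fun μ hμ => ?_) (half_lt_self hε)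
      have h1 := pr_spec hL h (f n) x ⟨μ, hμ⟩
      simp only at h1
      rw [map_sub, h1]
      exact (hn ⟨μ, hμ⟩).le
    · have hcl : IsClosed (range (pr hL h t)) := by
        have h2 : range (pr hL h t) = {x | pr hL h t x = x} := by
          ext x
          constructor
          · rintro ⟨y, rfl⟩
            exact (hcomm t t (le_refl _) y).1
          · intro h'
            exact ⟨x, h'⟩
        rw [h2]
        exact isClosed_eq (pr hL h t).continuous continuous_id
      refine closure_minimal (iUnion_subset fun n => ?_) hcl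
      intro x hx
      rw [mem_range_pr] at hx ⊢
      exact hx.mono h (ht'.1 ⟨n, rfl⟩)

end Pool.Agent.H110.RP
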