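import Pool.Agent.H110.RP.C3

/-!
# The probability measures and the dual unit ball
-/

set_option autoImplicit false

open Set Topology Filter

namespace Pool.Agent.H110.RP

universe u v

section general

variable {X : Type u} [NormedAddCommGroup X] [NormedSpace ℝ X] {L : Set (WeakDual ℝ X)}

theorem repr_aux (hc : IsCompact L) (hL : Convex ℝ L) (G : L → ℝ) (hG : Continuous G)
    (haff : ∀ (a b : L) (c : Set.Icc (0 : ℝ) 1),
      G (mix hL a b c) = (c : ℝ) * G a + (1 - (c : ℝ)) * G b) (y : X)
    (hsep : ∀ μ ∈ L, ∀ (z : X) (u : ℝ),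
      (∀ ν : L, (ν : WeakDual ℝ X) y = G ν → (ν : WeakDual ℝ X) z < u) → μ z ≤ u) (μ : L) :
    (μ : WeakDual ℝ X) y = G μ := by
  have : CompactSpace L := isCompact_iff_compactSpace.1 hc
  by_contra hne
  let A : Set L := {ν : L | (ν : WeakDual ℝ X) y = G ν}
  have hA : IsClosed A := isClosed_eq (continuous_eval' y) hG
  have h1 : IsClosed (Subtype.val '' A : Set (WeakDual ℝ X)) :=
    (hA.isCompact.image continuous_subtype_val).isClosed
  have h2 : Convex ℝ (Subtype.val '' A : Set (WeakDual ℝ X)) := by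
    rintro _ ⟨a, ha, rfl⟩ _ ⟨b, hb, rfl⟩ s t hs ht hst
    have hs1 : s ≤ 1 := by linarith
    have ht' : t = 1 - s := by linarith
    subst ht'
    refine ⟨mix hL a b ⟨s, hs, hs1⟩, ?_, rfl⟩
    change (mix hL a b ⟨s, hs, hs1⟩ : WeakDual ℝ X) y = G (mix hL a b ⟨s, hs, hs1⟩)
    have ha' : (a : WeakDual ℝ X) y = G a := ha
    have hb' : (b : WeakDual ℝ X) y = G b := hb
    rw [haff, mix_apply, ha', hb']
  have h3 : (μ : WeakDual ℝ X) ∉ (Subtype.val '' A : Set (WeakDual ℝ X)) := by
    rintro ⟨ν, hν, hνμ⟩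
    have : ν = μ := Subtype.ext hνμ
    subst this
    exact hne hν
  have : LocallyConvexSpace ℝ (WeakDual ℝ X) :=
    inferInstanceAs (LocallyConvexSpace ℝ (WeakBilin (topDualPairing ℝ X)))
  obtain ⟨f, u, hfu, huf⟩ := geometric_hahn_banach_closed_point h2 h1 h3
  obtain ⟨z, hz⟩ := LinearMap.dualEmbedding_surjective (topDualPairing ℝ X) f
  have hz' : ∀ ν : WeakDual ℝ X, f ν = ν z := by
    intro ν
    rw [← hz]
    rfl
  have h4 := hsep μ μ.2 z u (fun ν hν => by
    rw [← hz']
    exact hfu _ ⟨ν, hν, rfl⟩)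
  rw [hz'] at huf
  linarith

end general

variable (K : Type u) [TopologicalSpace K] [CompactSpace K]

/-- the dual unit ball of `C(K)`, as a subset of the dual with the weak* topology -/
def ballK : Set (WeakDual ℝ C(K, ℝ)) := {μ | ‖WeakDual.toStrongDual μ‖ ≤ 1}

/-- `P(K)`: the positive functionals with `μ(1) = 1` (by the Riesz theorem, the Radon probability
measures), as a subset of the dual with the weak* topology -/
def probK : Set (WeakDual ℝ C(K, ℝ)) := {μ | μ 1 = 1 ∧ ∀ f : C(K, ℝ), 0 ≤ f → 0 ≤ μ f}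

variable {K}

/-- point masses -/
noncomputable def delta (k : K) : WeakDual ℝ C(K, ℝ) :=
  StrongDual.toWeakDual (ContinuousMap.evalCLM ℝ k)

theorem delta_apply (k : K) (f : C(K, ℝ)) : delta k f = f k := rfl

theorem continuous_delta : Continuous (delta : K → WeakDual ℝ C(K, ℝ)) :=
  WeakDual.continuous_of_continuous_eval fun f => f.continuous

theorem mem_ballK {μ : WeakDual ℝ C(K, ℝ)} : μ ∈ ballK K ↔ ∀ f, |μ f| ≤ ‖f‖ := by
  have h1 : μ ∈ ballK K ↔ ‖WeakDual.toStrongDual μ‖ ≤ 1 := Iff.rfl
  rw [h1]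
  constructor
  · intro h f
    have h2 := (WeakDual.toStrongDual μ).le_of_opNorm_le h f
    rw [one_mul, Real.norm_eq_abs] at h2
    exact h2
  · intro h
    refine ContinuousLinearMap.opNorm_le_bound _ zero_le_one fun f => ?_
    rw [one_mul, Real.norm_eq_abs]
    exact h f

theorem isCompact_ballK : IsCompact (ballK K) := by
  have h := WeakDual.isCompact_closedBall (𝕜 := ℝ) (E := C(K, ℝ)) 0 1
  convert! h using 1
  ext μ
  exact (mem_closedBall_zero_iff (a := WeakDual.toStrongDual μ) (r := (1 : ℝ))).symm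

theorem convex_ballK : Convex ℝ (ballK K) := by
  intro a ha b hb s t hs ht hst
  rw [mem_ballK] at *
  intro f
  change |s * a f + t * b f| ≤ ‖f‖
  calc |s * a f + t * b f| ≤ |s * a f| + |t * b f| := abs_add_le _ _
    _ = s * |a f| + t * |b f| := by rw [abs_mul, abs_mul, abs_of_nonneg hs, abs_of_nonneg ht]
    _ ≤ s * ‖f‖ + t * ‖f‖ := add_le_add (mul_le_mul_of_nonneg_left (ha f) hs)
      (mul_le_mul_of_nonneg_left (hb f) ht)
    _ = ‖f‖ := by rw [← add_mul, hst, one_mul]

theorem mono_of_prob {μ : WeakDual ℝ C(K, ℝ)} (h : μ ∈ probK K) {f g : C(K, ℝ)} (hfg : f ≤ g) :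
    μ f ≤ μ g := by
  have h1 := h.2 (g - f) (sub_nonneg.2 hfg)
  rw [map_sub] at h1
  linarith

theorem prob_const {μ : WeakDual ℝ C(K, ℝ)} (h : μ ∈ probK K) (c : ℝ) :
    μ (c • (1 : C(K, ℝ))) = c := by
  rw [map_smul, h.1, smul_eq_mul, mul_one]

theorem prob_le_of_le {μ : WeakDual ℝ C(K, ℝ)} (h : μ ∈ probK K) {f : C(K, ℝ)} {c : ℝ}
    (hf : ∀ k, f k ≤ c) : μ f ≤ c := by
  rw [← prob_const h c]
  refine mono_of_prob h fun k => ?_
  simpa using hf k

theorem probK_subset : probK K ⊆ ballK K := by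
  intro μ h
  rw [mem_ballK]
  intro f
  rw [abs_le]
  constructor
  · have h1 := prob_le_of_le h (f := -f) (c := ‖f‖) (fun k => by
      have := f.norm_coe_le_norm k
      rw [Real.norm_eq_abs] at this
      exact (neg_le_abs _).trans this)
    rw [map_neg] at h1
    linarith
  · exact prob_le_of_le h fun k => by
      have := f.norm_coe_le_norm k
      rw [Real.norm_eq_abs] at this
      exact (le_abs_self _).trans this

theorem isCompact_probK : IsCompact (probK K) := by
  refine isCompact_ballK.of_isClosed_subset ?_ probK_subset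
  have h1 : probK K = {μ | μ 1 = 1} ∩ ⋂ f : {f : C(K, ℝ) // 0 ≤ f}, {μ | 0 ≤ μ f.1} := by
    ext μ
    simp only [probK, mem_inter_iff, mem_iInter, mem_ofPred_eq, Subtype.forall]
  rw [h1]
  refine IsClosed.inter (isClosed_eq (WeakDual.eval_continuous _) continuous_const) ?_
  exact isClosed_iInter fun f => isClosed_le continuous_const (WeakDual.eval_continuous _)

theorem convex_probK : Convex ℝ (probK K) := by
  intro a ha b hb s t hs ht hst
  constructor
  · change s * a 1 + t * b 1 = 1
    rw [ha.1, hb.1, mul_one, mul_one, hst]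
  · intro f hf
    change 0 ≤ s * a f + t * b f
    exact add_nonneg (mul_nonneg hs (ha.2 f hf)) (mul_nonneg ht (hb.2 f hf))

theorem delta_mem_prob (k : K) : delta k ∈ probK K := ⟨rfl, fun f hf => hf k⟩

theorem delta_mem_ball (k : K) : delta k ∈ ballK K := probK_subset (delta_mem_prob k)

theorem neg_mem_ball {μ : WeakDual ℝ C(K, ℝ)} (h : μ ∈ ballK K) : -μ ∈ ballK K := by
  rw [mem_ballK] at *
  intro f
  change |-(μ f)| ≤ ‖f‖
  rw [abs_neg]
  exact h f

theorem adm_probK : Adm (probK K) where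
  compact := isCompact_probK
  convex := convex_probK
  ball := fun μ hμ => mem_ballK.1 (probK_subset hμ)
  norming := fun x c hc h => by
    rw [ContinuousMap.norm_le _ hc]
    intro k
    exact h _ (delta_mem_prob k)
  repr := fun G hG haff _ => by
    let y : C(K, ℝ) := ⟨fun k => G ⟨delta k, delta_mem_prob k⟩,
      hG.comp (Continuous.subtype_mk continuous_delta _)⟩
    refine ⟨y, repr_aux isCompact_probK convex_probK G hG haff y ?_⟩
    intro μ hμ z u hz
    refine prob_le_of_le hμ fun k => ?_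
    exact (hz ⟨delta k, delta_mem_prob k⟩ rfl).le

theorem zero_mem_ball : (0 : WeakDual ℝ C(K, ℝ)) ∈ ballK K := by
  rw [mem_ballK]
  intro f
  change |(0 : ℝ)| ≤ ‖f‖
  simp

theorem adm_ballK : Adm (ballK K) where
  compact := isCompact_ballK
  convex := convex_ballK
  ball := fun μ hμ => mem_ballK.1 hμ
  norming := fun x c hc h => by
    rw [ContinuousMap.norm_le _ hc]
    intro k
    exact h _ (delta_mem_ball k)
  repr := fun G hG haff h0 => by
    let y : C(K, ℝ) := ⟨fun k => G ⟨delta k, delta_mem_ball k⟩,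
      hG.comp (Continuous.subtype_mk continuous_delta _)⟩
    refine ⟨y, repr_aux isCompact_ballK convex_ballK G hG haff y ?_⟩
    intro μ hμ z u hz
    have hzero : 0 < u := by
      have h1 := hz ⟨0, zero_mem_ball⟩ (by
        rw [h0 zero_mem_ball]
        rfl)
      exact h1
    have hneg : ∀ k, -(z k) < u := by
      intro k
      have h1 := hz ⟨-delta k, neg_mem_ball (delta_mem_ball k)⟩ (by
        have h2 := haff ⟨delta k, delta_mem_ball k⟩ ⟨-delta k, neg_mem_ball (delta_mem_ball k)⟩
          ⟨1 / 2, by norm_num, by norm_num⟩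
        have h3 : mix convex_ballK ⟨delta k, delta_mem_ball k⟩
            ⟨-delta k, neg_mem_ball (delta_mem_ball k)⟩ ⟨1 / 2, by norm_num, by norm_num⟩ =
            (⟨0, zero_mem_ball⟩ : ballK K) := by
          apply ext_L
          intro x
          rw [mix_apply]
          change 1 / 2 * x k + (1 - 1 / 2) * (-(x k)) = 0
          ring
        rw [h3, h0 zero_mem_ball] at h2
        change -(G ⟨delta k, delta_mem_ball k⟩) = G ⟨-delta k, neg_mem_ball (delta_mem_ball k)⟩
        have h4 : (0 : ℝ) = 1 / 2 * G ⟨delta k, delta_mem_ball k⟩ +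
          (1 - 1 / 2) * G ⟨-delta k, neg_mem_ball (delta_mem_ball k)⟩ := h2
        linarith)
      exact h1
    have hnorm : ‖z‖ ≤ u := by
      rw [ContinuousMap.norm_le _ hzero.le]
      intro k
      rw [Real.norm_eq_abs, abs_le]
      constructor
      · have := hneg k
        linarith
      · exact (hz ⟨delta k, delta_mem_ball k⟩ rfl).le
    exact ((le_abs_self _).trans (mem_ballK.1 hμ z)).trans hnorm

end Pool.Agent.H110.RP
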