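import Pool.Agent.H110.RP.C4

/-!
# From projectional skeletons to retractional skeletons on the dual ball
-/

set_option autoImplicit false

open Set Topology Filter

namespace Pool.Agent.H110.RP

universe u v

variable {K : Type u} [TopologicalSpace K] [CompactSpace K]
variable {Γ : Type v} [PartialOrder Γ]

/-- the subset of the dual induced by a retractional skeleton on `L` -/
def Ind {L : Set (WeakDual ℝ C(K, ℝ))} (r : Γ → L → L) : Set (WeakDual ℝ C(K, ℝ)) :=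
  Subtype.val '' ⋃ s, range (r s)

section dual

variable {P : Γ → C(K, ℝ) →L[ℝ] C(K, ℝ)}

theorem comp_mem_ball (hn : ∀ s, ‖P s‖ ≤ 1) (s : Γ) (μ : ballK K) :
    StrongDual.toWeakDual ((WeakDual.toStrongDual (μ : WeakDual ℝ C(K, ℝ))).comp (P s)) ∈
      ballK K := by
  rw [mem_ballK]
  intro f
  change |(μ : WeakDual ℝ C(K, ℝ)) (P s f)| ≤ ‖f‖
  have h1 := (P s).le_of_opNorm_le (hn s) f
  rw [one_mul] at h1
  exact (mem_ballK.1 μ.2 (P s f)).trans h1

/-- the adjoint of `P_s` on the dual ball -/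
noncomputable def adj (P : Γ → C(K, ℝ) →L[ℝ] C(K, ℝ)) (hn : ∀ s, ‖P s‖ ≤ 1) (s : Γ)
    (μ : ballK K) : ballK K :=
  ⟨StrongDual.toWeakDual ((WeakDual.toStrongDual (μ : WeakDual ℝ C(K, ℝ))).comp (P s)),
    comp_mem_ball hn s μ⟩

theorem adj_apply (hn : ∀ s, ‖P s‖ ≤ 1) (s : Γ) (μ : ballK K) (f : C(K, ℝ)) :
    (adj P hn s μ : WeakDual ℝ C(K, ℝ)) f = (μ : WeakDual ℝ C(K, ℝ)) (P s f) := rfl

theorem continuous_adj (hn : ∀ s, ‖P s‖ ≤ 1) (s : Γ) : Continuous (adj P hn s) := by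
  refine Continuous.subtype_mk (WeakDual.continuous_of_continuous_eval fun f => ?_) _
  exact continuous_eval' (L := ballK K) (P s f)

theorem tendsto_P (hP : IsPSkeleton P) (hn : ∀ s, ‖P s‖ ≤ 1) {f : ℕ → Γ} (hf : StrictMono f)
    {t : Γ} (ht : IsLUB (range f) t) (x : C(K, ℝ)) :
    Tendsto (fun n => P (f n) x) atTop (𝓝 (P t x)) := by
  have hle : ∀ n, f n ≤ t := fun n => ht.1 ⟨n, rfl⟩
  rw [Metric.tendsto_atTop]
  intro ε hε
  have h1 : P t x ∈ closure (⋃ n, range (P (f n))) := by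
    rw [← hP.range_sup f hf t ht]
    exact ⟨x, rfl⟩
  obtain ⟨z, hz, hd⟩ := Metric.mem_closure_iff.1 h1 (ε / 2) (by positivity)
  obtain ⟨m, w, hw⟩ := mem_iUnion.1 hz
  refine ⟨m, fun n hn' => ?_⟩
  have h2 : P (f n) z = z := by
    rw [← hw]
    exact (hP.comm (f m) (f n) (hf.monotone hn') w).2
  have h3 : P (f n) x = P (f n) (P t x) := (hP.comm (f n) t (hle n) x).1.symm
  rw [dist_eq_norm] at hd ⊢
  have h4 : P (f n) x - P t x = P (f n) (P t x - z) - (P t x - z) := by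
    rw [map_sub, h2, ← h3]
    abel
  rw [h4]
  have h5 := (P (f n)).le_of_opNorm_le (hn (f n)) (P t x - z)
  rw [one_mul] at h5
  have h6 := norm_sub_le (P (f n) (P t x - z)) (P t x - z)
  linarith

theorem adj_metr (hP : IsPSkeleton P) (hn : ∀ s, ‖P s‖ ≤ 1) (s : Γ) :
    TopologicalSpace.MetrizableSpace (range (adj P hn s)) := by
  have : CompactSpace (ballK K) := isCompact_iff_compactSpace.1 isCompact_ballK
  have hcomp : IsCompact (range (adj P hn s)) := isCompact_range (continuous_adj hn s)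
  have : CompactSpace (range (adj P hn s)) := isCompact_iff_compactSpace.1 hcomp
  obtain ⟨c, hc, hcl⟩ := hP.separable s
  have : Countable c := hc.to_subtype
  let J : range (adj P hn s) → (c → ℝ) := fun μ x =>
    ((μ : ballK K) : WeakDual ℝ C(K, ℝ)) (x : C(K, ℝ))
  have hJ : Continuous J := by
    refine continuous_pi fun x => ?_
    exact (continuous_eval' (L := ballK K) (x : C(K, ℝ))).comp continuous_subtype_val
  have hinj : Function.Injective J := by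
    intro μ ν hμν
    apply Subtype.ext
    apply ext_L
    intro x
    obtain ⟨μ', hμ'⟩ := μ.2
    obtain ⟨ν', hν'⟩ := ν.2
    have h1 : ∀ y ∈ closure c, ((μ : ballK K) : WeakDual ℝ C(K, ℝ)) y =
        ((ν : ballK K) : WeakDual ℝ C(K, ℝ)) y := by
      have h2 : IsClosed {y : C(K, ℝ) | ((μ : ballK K) : WeakDual ℝ C(K, ℝ)) y =
          ((ν : ballK K) : WeakDual ℝ C(K, ℝ)) y} :=
        isClosed_eq (WeakDual.toStrongDual ((μ : ballK K) : WeakDual ℝ C(K, ℝ))).continuous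
          (WeakDual.toStrongDual ((ν : ballK K) : WeakDual ℝ C(K, ℝ))).continuous
      exact fun y hy => closure_minimal (fun z hz => congrFun hμν ⟨z, hz⟩) h2 hy
    have h3 : ∀ (ρ : ballK K), ρ ∈ range (adj P hn s) →
        (ρ : WeakDual ℝ C(K, ℝ)) x = (ρ : WeakDual ℝ C(K, ℝ)) (P s x) := by
      rintro _ ⟨ρ, rfl⟩
      rw [adj_apply, adj_apply, hP.proj]
    rw [h3 _ μ.2, h3 _ ν.2]
    exact h1 _ (hcl ⟨x, rfl⟩)
  exact (hJ.isClosedEmbedding hinj).isEmbedding.metrizableSpace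

theorem adj_skeleton (hP : IsPSkeleton P) (hn : ∀ s, ‖P s‖ ≤ 1) : IsRSkeleton (adj P hn) where
  nonempty := hP.nonempty
  directed := hP.directed
  cont := continuous_adj hn
  retr := fun s μ => ext_L fun x => by rw [adj_apply, adj_apply, adj_apply, hP.proj]
  metr := adj_metr hP hn
  comm := fun s t hst μ => by
    constructor
    · exact ext_L fun x => by rw [adj_apply, adj_apply, adj_apply, (hP.comm s t hst x).2]
    · exact ext_L fun x => by rw [adj_apply, adj_apply, adj_apply, (hP.comm s t hst x).1]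
  sup := hP.sup
  lim_sup := fun f hf t ht μ => by
    rw [tendsto_subtype_rng]
    refine (WeakBilin.tendsto_iff_forall_eval_tendsto (topDualPairing ℝ C(K, ℝ))
      (ContinuousLinearMap.coe_injective)).2 fun x => ?_
    exact ((WeakDual.toStrongDual (μ : WeakDual ℝ C(K, ℝ))).continuous.tendsto _).comp
      (tendsto_P hP hn hf ht x)
  lim := fun μ => by
    rw [tendsto_subtype_rng]
    refine (WeakBilin.tendsto_iff_forall_eval_tendsto (topDualPairing ℝ C(K, ℝ))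
      (ContinuousLinearMap.coe_injective)).2 fun x => ?_
    obtain ⟨s₀, y, hy⟩ := hP.union x
    have : Nonempty Γ := hP.nonempty
    have : IsDirected Γ (· ≤ ·) := ⟨hP.directed⟩
    refine tendsto_const_nhds.congr' ?_
    filter_upwards [eventually_ge_atTop s₀] with s hs
    change (μ : WeakDual ℝ C(K, ℝ)) x = (μ : WeakDual ℝ C(K, ℝ)) (P s x)
    rw [← hy, (hP.comm s₀ s hs y).2]

theorem adj_fixed (hP : IsPSkeleton P) (hn : ∀ s, ‖P s‖ ≤ 1) {μ ν : ballK K}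
    (hμ : μ ∈ ⋃ s, range (adj P hn s)) (hν : ν ∈ ⋃ s, range (adj P hn s)) :
    ∃ s, ∀ x, (μ : WeakDual ℝ C(K, ℝ)) (P s x) = (μ : WeakDual ℝ C(K, ℝ)) x ∧
      (ν : WeakDual ℝ C(K, ℝ)) (P s x) = (ν : WeakDual ℝ C(K, ℝ)) x := by
  obtain ⟨s, μ', rfl⟩ := mem_iUnion.1 hμ
  obtain ⟨t, ν', rfl⟩ := mem_iUnion.1 hν
  obtain ⟨w, h1, h2⟩ := hP.directed s t
  refine ⟨w, fun x => ?_⟩
  rw [adj_apply, adj_apply, adj_apply, adj_apply, (hP.comm s w h1 x).1, (hP.comm t w h2 x).1]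
  exact ⟨rfl, rfl⟩

theorem mem_Ind_of_fixed (hn : ∀ s, ‖P s‖ ≤ 1) {ρ : WeakDual ℝ C(K, ℝ)} (hρ : ρ ∈ ballK K) {s : Γ}
    (h : ∀ x, ρ (P s x) = ρ x) : ρ ∈ Ind (adj P hn) := by
  refine ⟨⟨ρ, hρ⟩, mem_iUnion.2 ⟨s, ⟨ρ, hρ⟩, ?_⟩, rfl⟩
  exact ext_L fun x => h x

theorem adj_convex (hP : IsPSkeleton P) (hn : ∀ s, ‖P s‖ ≤ 1) : Convex ℝ (Ind (adj P hn)) := by
  rintro _ ⟨a, ha, rfl⟩ _ ⟨b, hb, rfl⟩ p q hp hq hpq
  obtain ⟨s, hs⟩ := adj_fixed hP hn ha hb
  refine mem_Ind_of_fixed hn (s := s) (convex_ballK a.2 b.2 hp hq hpq) fun x => ?_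
  change p * (a : WeakDual ℝ C(K, ℝ)) (P s x) + q * (b : WeakDual ℝ C(K, ℝ)) (P s x) =
    p * (a : WeakDual ℝ C(K, ℝ)) x + q * (b : WeakDual ℝ C(K, ℝ)) x
  rw [(hs x).1, (hs x).2]

theorem adj_symm (hP : IsPSkeleton P) (hn : ∀ s, ‖P s‖ ≤ 1) :
    ∀ μ ∈ Ind (adj P hn), -μ ∈ Ind (adj P hn) := by
  rintro _ ⟨a, ha, rfl⟩
  obtain ⟨s, hs⟩ := adj_fixed hP hn ha ha
  refine mem_Ind_of_fixed hn (s := s) (neg_mem_ball a.2) fun x => ?_
  change -((a : WeakDual ℝ C(K, ℝ)) (P s x)) = -((a : WeakDual ℝ C(K, ℝ)) x)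
  rw [(hs x).1]

end dual

/-- from convexity of the induced set to the form used in `isPSkeleton` -/
theorem mix_mem {L : Set (WeakDual ℝ C(K, ℝ))} (hL : Convex ℝ L) {r : Γ → L → L}
    (h : Convex ℝ (Ind r)) : ∀ a ∈ ⋃ s, range (r s), ∀ b ∈ ⋃ s, range (r s),
      ∀ c, mix hL a b c ∈ ⋃ s, range (r s) := by
  intro a ha b hb c
  have h1 : (mix hL a b c : WeakDual ℝ C(K, ℝ)) ∈ Ind r :=
    h ⟨a, ha, rfl⟩ ⟨b, hb, rfl⟩ c.2.1 (by linarith [c.2.2]) (by ring)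
  obtain ⟨ν, hν, hνm⟩ := h1
  have h2 : ν = mix hL a b c := Subtype.ext hνm
  rw [← h2]
  exact hν

end Pool.Agent.H110.RP
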